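import Pool.Agent.Y508.CH.Gf
import Pool.Agent.Y472.H.Defs
import Pool.Agent.Y837.CB.Pot

set_option autoImplicit false

/-!
Job CB3-H-GPA (project CB3 of helper472): the critical value as a function of `χ`, absolute
constants.
-/

namespace Pool.Agent.Y508.CH

open Finset Filter Topology Metric
open Pool.Agent.W711.HT
open Pool.Agent.Y472
open Pool.Agent.Y837.CB (P1 P3 Lg_ok Lg_comp comp_dl sder2)
open scoped Real

/-- The data of SD3 form a system on a small box. -/
theorem exists_sys {ρ₀ c C : ℝ} {s dl : ℂ → ℂ → ℂ → ℂ} (h : SD3 ρ₀ c C s dl) :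
    ∃ r : ℝ, 0 < r ∧ r ≤ ρ₀ ∧ Sys r C c s (P1 dl) (P3 dl) := by
  obtain ⟨r, hr, hL⟩ := Lg_ok
  have hC := h.hC
  have hρ := h.hρ.1
  have hρ1 := h.hρ.2
  have hπ := Real.pi_gt_three
  have hπ4 := Real.pi_lt_four
  set R : ℝ := min (min (ρ₀ / 4) (r / 4)) (r / (100 * C)) with hR
  have R1 : R ≤ ρ₀ / 4 := (min_le_left _ _).trans (min_le_left _ _)
  have R2 : R ≤ r / 4 := (min_le_left _ _).trans (min_le_right _ _)
  have R3 : R ≤ r / (100 * C) := min_le_right _ _
  have R0 : 0 < R := by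
    rw [hR]
    exact lt_min (lt_min (by positivity) (by positivity)) (by positivity)
  have R3' : 100 * C * R ≤ r := by
    rw [le_div_iff₀ (by positivity)] at R3; linarith
  have hsub : ∀ {z : ℂ}, z ∈ Rc R R → z ∈ Rc ρ₀ ρ₀ := fun hz => Rc_mo (by linarith) hz
  have hnorm : ∀ {z : ℂ}, z ∈ Rc R R → ‖z‖ < r := fun hz => by
    have := Pool.Agent.Y837.CB.Rc_norm hz; linarith
  -- the angle is close to `π / 2`
  have hdl : ∀ {a b χ : ℂ}, a ∈ Rc R R → b ∈ Rc R R → χ ∈ Rc R R →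
      ‖2 * (π : ℂ) * (dl a b χ - 1 / 4)‖ < r := by
    intro a b χ ha hb hχ
    have h1 := (h.dclose a (hsub ha) b (hsub hb) χ (hsub hχ)).2
    have na := Pool.Agent.Y837.CB.Rc_norm ha
    have nb := Pool.Agent.Y837.CB.Rc_norm hb
    have nc := Pool.Agent.Y837.CB.Rc_norm hχ
    have q : ∀ {x : ℝ}, 0 ≤ x → x < 2 * R → x ^ 2 ≤ 4 * R ^ 2 := by
      intro x hx0 hx; nlinarith
    have qa := q (norm_nonneg a) na
    have qb := q (norm_nonneg b) nb
    have qc := q (norm_nonneg χ) nc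
    have h2 : ‖dl a b χ - 1 / 4‖ ≤ C * (12 * R ^ 2) := by
      refine h1.trans ?_
      apply mul_le_mul_of_nonneg_left _ hC.le
      linarith
    rw [norm_mul, norm_mul]
    have h3 : ‖(2 : ℂ)‖ = 2 := by simp
    have h4 : ‖(π : ℂ)‖ = π := by simp [abs_of_pos Real.pi_pos]
    rw [h3, h4]
    have h5 : R ^ 2 ≤ R / 4 := by nlinarith
    have h6 : 2 * π * ‖dl a b χ - 1 / 4‖ ≤ 8 * (C * (12 * R ^ 2)) := by
      apply mul_le_mul _ h2 (norm_nonneg _) (by norm_num)
      linarith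
    have h7 : 8 * (C * (12 * R ^ 2)) ≤ 24 * C * R := by nlinarith
    have h8 : 24 * C * R < 100 * C * R := by nlinarith [mul_pos hC R0]
    linarith
  have f1 : ∀ a ∈ Rc R R, ∀ b ∈ Rc R R, ∀ χ ∈ Rc R R,
      HasDerivAt (fun w => s w b χ) (P1 dl a b χ) a := fun a ha b hb χ hχ =>
    h.sder a (hsub ha) b (hsub hb) χ (hsub hχ)
  have g1 : ∀ a ∈ Rc R R, ∀ b ∈ Rc R R, ∀ χ ∈ Rc R R,
      HasDerivAt (fun w => s a b w) (P3 dl a b χ) χ := fun a ha b hb χ hχ =>
    h.sderc a (hsub ha) b (hsub hb) χ (hsub hχ)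
  refine ⟨R, R0, by linarith,
    { hr := R0
      hC := hC
      hc := h.hc
      sd := h.san.mono ?_
      fd := ?_
      gd := ?_
      sb := fun a ha b hb χ hχ => h.sbd a (hsub ha) b (hsub hb) χ (hsub hχ)
      f1 := f1
      f2 := fun a ha b hb χ hχ => sder2 h (hsub ha) (hsub hb) (hsub hχ)
      g1 := g1
      ev := fun a ha b hb χ hχ => h.ev a (hsub ha) b (hsub hb) χ (hsub hχ)
      evc := fun a ha b hb χ hχ => h.evc a (hsub ha) b (hsub hb) χ (hsub hχ)
      fc := ?_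
      gc := ?_ }⟩
  · rintro p ⟨h1, h2, h3⟩
    exact ⟨hsub h1, hsub h2, hsub h3⟩
  · unfold P1
    apply DifferentiableOn.const_mul
    refine Lg_comp hL ?_ differentiable_fst.differentiableOn ?_ ?_
    · exact (h.dan.mono (by
        rintro p ⟨h1, h2, h3⟩
        exact ⟨hsub h1, hsub h2, hsub h3⟩)).const_mul _
    · rintro p ⟨h1, h2, h3⟩
      have := hdl h1 h2 h3
      convert this using 2
      ring
    · rintro p ⟨h1, h2, h3⟩
      exact hnorm h1
  · unfold P3
    apply DifferentiableOn.const_mul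
    refine Lg_comp hL ?_ (by fun_prop) ?_ ?_
    · exact ((h.dan.mono (by
        rintro p ⟨h1, h2, h3⟩
        exact ⟨hsub h1, hsub h2, hsub h3⟩)).const_mul _).const_sub _
    · rintro p ⟨h1, h2, h3⟩
      have h5 := hdl h1 h2 h3
      have e : (π : ℂ) - 2 * π * dl p.1 p.2.1 p.2.2 - π / 2 =
          -(2 * (π : ℂ) * (dl p.1 p.2.1 p.2.2 - 1 / 4)) := by ring
      rw [e, norm_neg]
      exact h5
    · rintro p ⟨h1, h2, h3⟩
      exact hnorm h3
  · intro a ha b hb χ hχ
    have e : (fun w => P1 dl w b χ) =ᶠ[𝓝 a] deriv (fun w => s w b χ) := by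
      filter_upwards [(Rc_isOpen R R).mem_nhds ha] with w hw
      exact (f1 w hw b hb χ hχ).deriv.symm
    rw [e.deriv_eq]
    exact (h.conc a (hsub ha) b (hsub hb) χ (hsub hχ)).1
  · intro a ha b hb χ hχ
    have e : (fun w => P3 dl a b w) =ᶠ[𝓝 χ] deriv (fun w => s a b w) := by
      filter_upwards [(Rc_isOpen R R).mem_nhds hχ] with w hw
      exact (g1 a ha b hb w hw).deriv.symm
    rw [e.deriv_eq]
    exact (h.conc a (hsub ha) b (hsub hb) χ (hsub hχ)).2

theorem gpa : Pool.Agent.Y472.S_GPA := by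
  intro ρ₀ c C s dl hs
  obtain ⟨r, hr, hrρ, h⟩ := exists_sys hs
  have hA := h.AA_pos
  have hK := h.K1_pos
  have hc := h.hc
  have hM : 0 < MM r C c := by linarith [h.MM_1]
  refine ⟨r / 4, c / 2, Sys.AA r C + c / 2, K1 r C * (K1 r C + 2 + 2 * Sys.AA r C) + K1 r C,
    MM r C c, by positivity, by linarith, by positivity, by positivity, by positivity, hM, ?_⟩
  intro n hn a ha
  have hin : ∀ {χ : ℂ}, χ ∈ Rc (r / 4) (r / 4) → χ ∈ Rc (r / 2) (r / 2) :=
    fun hχ => Rc_mo (by linarith) hχ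
  refine ⟨GG s n a (zf (P1 dl) n a), zf (P1 dl) n a,
    (h.G_diff hn ha).mono fun _ hχ => hin hχ, ?_, ?_, ?_⟩
  · intro χ hχ
    obtain ⟨e1, e2⟩ := h.G_der2 hn ha hχ
    exact ⟨h.G_even hn ha (hin hχ), e1, e2⟩
  · intro χ hχ
    have hχ' := hin hχ
    refine ⟨fun j hj => ?_, ?_, rfl⟩
    · have hz := h.z_bd hn ha hχ' hj
      have hp := h.apos ha hj
      refine ⟨?_, ?_, h.im_pos hn ha hχ' hj, ?_, ?_⟩
      · refine hz.trans ?_
        apply div_le_div_of_nonneg_right _ hp.le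
        have : 0 < K1 r C * (K1 r C + 2 + 2 * Sys.AA r C) := by positivity
        linarith
      · exact Rc_mo (by linarith) (h.z_mem hn ha hχ' hj)
      · exact hz.trans ((h.Ka ha hj).trans h.MM_3)
      · have hi : (j + 1) % n < n := su_lt hn j
        have hi2 : ((j + 1) % n + 1) % n < n := su_lt hn _
        have m0 := h.half (h.z_mem hn ha hχ' hj)
        have m1 := h.half (h.z_mem hn ha hχ' hi)
        have m2 := h.half (h.z_mem hn ha hχ' hi2)
        have e1 := (h.f2 _ m0 _ m1 _ (h.half hχ')).deriv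
        have e2 := (h.f1 _ m1 _ m2 _ (h.half hχ')).deriv
        rw [e1, e2]
        have e3 := h.crit hn ha hχ' hi
        have e4 : pr n ((j + 1) % n) = j := pr_su hn hj
        have e5 : su n ((j + 1) % n) = ((j + 1) % n + 1) % n := rfl
        rw [e4, e5] at e3
        linear_combination e3
    · rw [(h.G_der hn ha hχ').deriv]
      refine sum_congr rfl fun j hj => ?_
      have hj' := mem_range.1 hj
      exact (h.g1 _ (h.half (h.z_mem hn ha hχ' hj')) _
        (h.half (h.z_mem hn ha hχ' (su_lt hn j))) _ (h.half hχ')).deriv.symm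
  · intro m hm hm0 χ hχ
    refine (h.G_close hn ha (hin hχ) hm hm0).trans ?_
    apply div_le_div_of_nonneg_right _ hm0.le
    apply mul_le_mul_of_nonneg_right _ (Nat.cast_nonneg n)
    linarith

end Pool.Agent.Y508.CH
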