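import Pool.Agent.W711.HT.Defs

set_option autoImplicit false

/-!
Job CB3-H-GPA (project CB3 of helper472): abstract system, estimates by Cauchy's inequality.
-/

namespace Pool.Agent.Y508.CH

open Finset Filter Topology Metric
open Pool.Agent.W711.HT
open scoped Real

/-! ### The rectangle -/

lemma Rc_isOpen (ρ τ : ℝ) : IsOpen (Rc ρ τ) := by
  have h1 : IsOpen {z : ℂ | |z.re| < ρ} :=
    isOpen_lt (Complex.continuous_re.abs) continuous_const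
  have h2 : IsOpen {z : ℂ | |z.im| < τ} :=
    isOpen_lt (Complex.continuous_im.abs) continuous_const
  exact h1.inter h2

lemma Rc_conv (ρ τ : ℝ) : Convex ℝ (Rc ρ τ) := by
  have h : Rc ρ τ = Complex.reLm ⁻¹' Set.Ioo (-ρ) ρ ∩ Complex.imLm ⁻¹' Set.Ioo (-τ) τ := by
    ext z
    simp only [Rc, Set.mem_ofPred_eq, Set.mem_inter_iff, Set.mem_preimage, Set.mem_Ioo, abs_lt]
    rfl
  rw [h]
  exact ((convex_Ioo _ _).linear_preimage _).inter ((convex_Ioo _ _).linear_preimage _)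

lemma Rc_mo {a b : ℝ} (h : a ≤ b) {z : ℂ} (hz : z ∈ Rc a a) : z ∈ Rc b b :=
  ⟨lt_of_lt_of_le hz.1 h, lt_of_lt_of_le hz.2 h⟩

lemma Rc_ne {a : ℝ} {z : ℂ} (hz : z ∈ Rc a a) : -z ∈ Rc a a := by
  refine ⟨?_, ?_⟩
  · simpa using hz.1
  · simpa using hz.2

lemma Rc_no {a : ℝ} {z : ℂ} (hz : ‖z‖ < a) : z ∈ Rc a a :=
  ⟨(Complex.abs_re_le_norm z).trans_lt hz, (Complex.abs_im_le_norm z).trans_lt hz⟩

lemma Rc_ad {R δ : ℝ} {z w : ℂ} (hz : z ∈ Rc (R - δ) (R - δ)) (hw : ‖w - z‖ ≤ δ) : w ∈ Rc R R := by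
  have h1 := Complex.abs_re_le_norm (w - z)
  have h2 := Complex.abs_im_le_norm (w - z)
  have h3 := hz.1
  have h4 := hz.2
  rw [Complex.sub_re] at h1
  rw [Complex.sub_im] at h2
  refine ⟨?_, ?_⟩
  · have := abs_add_le (w.re - z.re) z.re
    rw [sub_add_cancel] at this
    linarith
  · have := abs_add_le (w.im - z.im) z.im
    rw [sub_add_cancel] at this
    linarith

/-! ### Cauchy's inequality -/

lemma cau {φ : ℂ → ℂ} {R δ B : ℝ} (hδ : 0 < δ) (hd : DifferentiableOn ℂ φ (Rc R R))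
    (hb : ∀ u ∈ Rc R R, ‖φ u‖ ≤ B) {u : ℂ} (hu : u ∈ Rc (R - δ) (R - δ)) :
    ‖deriv φ u‖ ≤ B / δ := by
  have hball : ∀ w ∈ closedBall u δ, w ∈ Rc R R := by
    intro w hw
    rw [mem_closedBall, dist_eq_norm] at hw
    exact Rc_ad hu hw
  refine Complex.norm_deriv_le_of_forall_mem_sphere_norm_le hδ ?_ ?_
  · apply DifferentiableOn.diffContOnCl
    rw [closure_ball _ hδ.ne']
    exact hd.mono hball
  · intro w hw
    exact hb w (hball w (sphere_subset_closedBall hw))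

lemma mvt {φ : ℂ → ℂ} {R B : ℝ} (hd : DifferentiableOn ℂ φ (Rc R R))
    (hb : ∀ u ∈ Rc R R, ‖deriv φ u‖ ≤ B) {u u' : ℂ} (hu : u ∈ Rc R R) (hu' : u' ∈ Rc R R) :
    ‖φ u - φ u'‖ ≤ B * ‖u - u'‖ :=
  Convex.norm_image_sub_le_of_norm_deriv_le
    (fun _ hx => hd.differentiableAt ((Rc_isOpen R R).mem_nhds hx)) hb (Rc_conv R R) hu' hu

lemma lip {φ : ℂ → ℂ} {R δ B : ℝ} (hδ : 0 < δ) (hd : DifferentiableOn ℂ φ (Rc R R))
    (hb : ∀ u ∈ Rc R R, ‖φ u‖ ≤ B) {u u' : ℂ} (hu : u ∈ Rc (R - δ) (R - δ))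
    (hu' : u' ∈ Rc (R - δ) (R - δ)) : ‖φ u - φ u'‖ ≤ B / δ * ‖u - u'‖ :=
  mvt (hd.mono fun _ hz => Rc_mo (by linarith) hz) (fun _ hz => cau hδ hd hb hz) hu hu'

/-! ### The system -/

/-- A function `s` of three variables with the partial derivatives `f` (first variable, and second
variable by symmetry) and `g` (third variable). -/
structure Sys (r C c : ℝ) (s f g : ℂ → ℂ → ℂ → ℂ) : Prop where
  hr : 0 < r
  hC : 0 < C
  hc : 0 < c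
  sd : DifferentiableOn ℂ (fun p : ℂ × ℂ × ℂ => s p.1 p.2.1 p.2.2) (Rc r r ×ˢ Rc r r ×ˢ Rc r r)
  fd : DifferentiableOn ℂ (fun p : ℂ × ℂ × ℂ => f p.1 p.2.1 p.2.2) (Rc r r ×ˢ Rc r r ×ˢ Rc r r)
  gd : DifferentiableOn ℂ (fun p : ℂ × ℂ × ℂ => g p.1 p.2.1 p.2.2) (Rc r r ×ˢ Rc r r ×ˢ Rc r r)
  sb : ∀ a ∈ Rc r r, ∀ b ∈ Rc r r, ∀ χ ∈ Rc r r, ‖s a b χ‖ ≤ C
  f1 : ∀ a ∈ Rc r r, ∀ b ∈ Rc r r, ∀ χ ∈ Rc r r, HasDerivAt (fun w => s w b χ) (f a b χ) a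
  f2 : ∀ a ∈ Rc r r, ∀ b ∈ Rc r r, ∀ χ ∈ Rc r r, HasDerivAt (fun w => s a w χ) (f b a χ) b
  g1 : ∀ a ∈ Rc r r, ∀ b ∈ Rc r r, ∀ χ ∈ Rc r r, HasDerivAt (fun w => s a b w) (g a b χ) χ
  ev : ∀ a ∈ Rc r r, ∀ b ∈ Rc r r, ∀ χ ∈ Rc r r, s (-a) b χ = s a b χ
  evc : ∀ a ∈ Rc r r, ∀ b ∈ Rc r r, ∀ χ ∈ Rc r r, s a b (-χ) = s a b χ
  fc : ∀ a ∈ Rc r r, ∀ b ∈ Rc r r, ∀ χ ∈ Rc r r, (deriv (fun w => f w b χ) a).re ≤ -c
  gc : ∀ a ∈ Rc r r, ∀ b ∈ Rc r r, ∀ χ ∈ Rc r r, (deriv (fun w => g a b w) χ).re ≤ -c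

namespace Sys

variable {r C c : ℝ} {s f g : ℂ → ℂ → ℂ → ℂ}

section comp

variable {E : Type*} [NormedAddCommGroup E] [NormedSpace ℂ E] {U : Set E} {a b χ : E → ℂ}

lemma comp3 {h : ℂ → ℂ → ℂ → ℂ}
    (hh : DifferentiableOn ℂ (fun p : ℂ × ℂ × ℂ => h p.1 p.2.1 p.2.2) (Rc r r ×ˢ Rc r r ×ˢ Rc r r))
    (ha : DifferentiableOn ℂ a U) (hb : DifferentiableOn ℂ b U)
    (hχ : DifferentiableOn ℂ χ U) (ma : ∀ x ∈ U, a x ∈ Rc r r) (mb : ∀ x ∈ U, b x ∈ Rc r r)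
    (mχ : ∀ x ∈ U, χ x ∈ Rc r r) : DifferentiableOn ℂ (fun x => h (a x) (b x) (χ x)) U :=
  hh.comp (f := fun x => (a x, b x, χ x)) (ha.prodMk (hb.prodMk hχ))
    (fun x hx => ⟨ma x hx, mb x hx, mχ x hx⟩)

end comp

/-- a constant for all estimates -/
noncomputable def AA (r C : ℝ) : ℝ := 4 * C / r + 16 * C / r ^ 2

variable (h : Sys r C c s f g)
include h

lemma AA_pos : 0 < AA r C := by
  have := h.hr
  have := h.hC
  unfold AA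
  positivity

lemma h4 : 0 < r / 4 := by have := h.hr; positivity

lemma B1 : C / (r / 4) ≤ AA r C := by
  have := h.hr
  have := h.hC
  unfold AA
  have e : C / (r / 4) = 4 * C / r := by field_simp
  have : 0 < 16 * C / r ^ 2 := by positivity
  linarith

lemma B2 : C / (r / 4) / (r / 4) ≤ AA r C := by
  have := h.hr
  have := h.hC
  unfold AA
  have e : C / (r / 4) / (r / 4) = 16 * C / r ^ 2 := by field_simp; norm_num
  have : 0 < 4 * C / r := by positivity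
  linarith

omit h in
lemma s1d {h3 : ℂ → ℂ → ℂ → ℂ}
    (hh : DifferentiableOn ℂ (fun p : ℂ × ℂ × ℂ => h3 p.1 p.2.1 p.2.2) (Rc r r ×ˢ Rc r r ×ˢ Rc r r))
    {b χ : ℂ} (hb : b ∈ Rc r r) (hχ : χ ∈ Rc r r) : DifferentiableOn ℂ (fun w => h3 w b χ) (Rc r r) :=
  comp3 hh differentiableOn_id (differentiableOn_const _) (differentiableOn_const _)
    (fun _ hx => hx) (fun _ _ => hb) (fun _ _ => hχ)

omit h in
lemma s2d {h3 : ℂ → ℂ → ℂ → ℂ}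
    (hh : DifferentiableOn ℂ (fun p : ℂ × ℂ × ℂ => h3 p.1 p.2.1 p.2.2) (Rc r r ×ˢ Rc r r ×ˢ Rc r r))
    {a χ : ℂ} (ha : a ∈ Rc r r) (hχ : χ ∈ Rc r r) : DifferentiableOn ℂ (fun w => h3 a w χ) (Rc r r) :=
  comp3 hh (differentiableOn_const _) differentiableOn_id (differentiableOn_const _)
    (fun _ _ => ha) (fun _ hx => hx) (fun _ _ => hχ)

omit h in
lemma s3d {h3 : ℂ → ℂ → ℂ → ℂ}
    (hh : DifferentiableOn ℂ (fun p : ℂ × ℂ × ℂ => h3 p.1 p.2.1 p.2.2) (Rc r r ×ˢ Rc r r ×ˢ Rc r r))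
    {a b : ℂ} (ha : a ∈ Rc r r) (hb : b ∈ Rc r r) : DifferentiableOn ℂ (fun w => h3 a b w) (Rc r r) :=
  comp3 hh (differentiableOn_const _) (differentiableOn_const _) differentiableOn_id
    (fun _ _ => ha) (fun _ _ => hb) (fun _ hx => hx)

lemma fb {a b χ : ℂ} (ha : a ∈ Rc (r - r / 4) (r - r / 4)) (hb : b ∈ Rc r r) (hχ : χ ∈ Rc r r) :
    ‖f a b χ‖ ≤ C / (r / 4) := by
  have h4 := h.h4
  have ha' : a ∈ Rc r r := Rc_mo (by linarith) ha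
  rw [← (h.f1 a ha' b hb χ hχ).deriv]
  exact cau h4 (s1d h.sd hb hχ) (fun u hu => h.sb u hu b hb χ hχ) ha

lemma gb {a b χ : ℂ} (ha : a ∈ Rc r r) (hb : b ∈ Rc r r) (hχ : χ ∈ Rc (r - r / 4) (r - r / 4)) :
    ‖g a b χ‖ ≤ C / (r / 4) := by
  have h4 := h.h4
  have hχ' : χ ∈ Rc r r := Rc_mo (by linarith) hχ
  rw [← (h.g1 a ha b hb χ hχ').deriv]
  exact cau h4 (s3d h.sd ha hb) (fun u hu => h.sb a ha b hb u hu) hχ

lemma half {z : ℂ} (hz : z ∈ Rc (r / 2) (r / 2)) : z ∈ Rc r r := Rc_mo (by linarith [h.hr]) hz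

lemma hq {z : ℂ} (hz : z ∈ Rc (r / 2) (r / 2)) : z ∈ Rc (r - r / 4) (r - r / 4) :=
  Rc_mo (by linarith [h.hr]) hz

lemma fA {a b χ : ℂ} (ha : a ∈ Rc (r / 2) (r / 2)) (hb : b ∈ Rc (r / 2) (r / 2))
    (hχ : χ ∈ Rc (r / 2) (r / 2)) : ‖f a b χ‖ ≤ AA r C :=
  (h.fb (h.hq ha) (h.half hb) (h.half hχ)).trans h.B1

lemma sL {a b χ a' b' : ℂ} (ha : a ∈ Rc (r / 2) (r / 2)) (hb : b ∈ Rc (r / 2) (r / 2))
    (ha' : a' ∈ Rc (r / 2) (r / 2)) (hb' : b' ∈ Rc (r / 2) (r / 2))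
    (hχ : χ ∈ Rc (r / 2) (r / 2)) :
    ‖s a b χ - s a' b' χ‖ ≤ AA r C * (‖a - a'‖ + ‖b - b'‖) := by
  have e1 : ‖s a b χ - s a' b χ‖ ≤ AA r C * ‖a - a'‖ :=
    (lip h.h4 (s1d h.sd (h.half hb) (h.half hχ)) (fun u hu => h.sb u hu b (h.half hb) χ (h.half hχ))
      (h.hq ha) (h.hq ha')).trans (mul_le_mul_of_nonneg_right h.B1 (norm_nonneg _))
  have e2 : ‖s a' b χ - s a' b' χ‖ ≤ AA r C * ‖b - b'‖ :=
    (lip h.h4 (s2d h.sd (h.half ha') (h.half hχ)) (fun u hu => h.sb a' (h.half ha') u hu χ (h.half hχ))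
      (h.hq hb) (h.hq hb')).trans (mul_le_mul_of_nonneg_right h.B1 (norm_nonneg _))
  calc ‖s a b χ - s a' b' χ‖ = ‖(s a b χ - s a' b χ) + (s a' b χ - s a' b' χ)‖ := by ring_nf
    _ ≤ _ := (norm_add_le _ _).trans (by linarith)

lemma fda {b χ : ℂ} (hb : b ∈ Rc (r / 2) (r / 2)) (hχ : χ ∈ Rc (r / 2) (r / 2)) {a : ℂ}
    (ha : a ∈ Rc (r / 2) (r / 2)) : ‖deriv (fun w => f w b χ) a‖ ≤ AA r C := by
  have h4 := h.h4
  refine (cau (R := r - r / 4) (δ := r / 4) (B := C / (r / 4)) h4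
    ((s1d h.fd (h.half hb) (h.half hχ)).mono fun _ hz => Rc_mo (by linarith) hz)
    (fun u hu => h.fb hu (h.half hb) (h.half hχ)) ?_).trans h.B2
  exact Rc_mo (by linarith) ha

lemma fL {a b χ a' b' : ℂ} (ha : a ∈ Rc (r / 2) (r / 2)) (hb : b ∈ Rc (r / 2) (r / 2))
    (ha' : a' ∈ Rc (r / 2) (r / 2)) (hb' : b' ∈ Rc (r / 2) (r / 2))
    (hχ : χ ∈ Rc (r / 2) (r / 2)) :
    ‖f a b χ - f a' b' χ‖ ≤ AA r C * (‖a - a'‖ + ‖b - b'‖) := by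
  have h4 := h.h4
  have e1 : ‖f a b χ - f a' b χ‖ ≤ AA r C * ‖a - a'‖ :=
    mvt ((s1d h.fd (h.half hb) (h.half hχ)).mono fun _ hz => Rc_mo (by linarith) hz)
      (fun u hu => h.fda hb hχ hu) ha ha'
  have e2 : ‖f a' b χ - f a' b' χ‖ ≤ AA r C * ‖b - b'‖ :=
    (lip h.h4 (s2d h.fd (h.half ha') (h.half hχ)) (fun u hu => h.fb (h.hq ha') hu (h.half hχ))
      (h.hq hb) (h.hq hb')).trans (mul_le_mul_of_nonneg_right h.B2 (norm_nonneg _))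
  calc ‖f a b χ - f a' b' χ‖ = ‖(f a b χ - f a' b χ) + (f a' b χ - f a' b' χ)‖ := by ring_nf
    _ ≤ _ := (norm_add_le _ _).trans (by linarith)

lemma gL {a b χ a' b' : ℂ} (ha : a ∈ Rc (r / 2) (r / 2)) (hb : b ∈ Rc (r / 2) (r / 2))
    (ha' : a' ∈ Rc (r / 2) (r / 2)) (hb' : b' ∈ Rc (r / 2) (r / 2))
    (hχ : χ ∈ Rc (r / 2) (r / 2)) :
    ‖g a b χ - g a' b' χ‖ ≤ AA r C * (‖a - a'‖ + ‖b - b'‖) := by
  have e1 : ‖g a b χ - g a' b χ‖ ≤ AA r C * ‖a - a'‖ :=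
    (lip h.h4 (s1d h.gd (h.half hb) (h.half hχ)) (fun u hu => h.gb hu (h.half hb) (h.hq hχ))
      (h.hq ha) (h.hq ha')).trans (mul_le_mul_of_nonneg_right h.B2 (norm_nonneg _))
  have e2 : ‖g a' b χ - g a' b' χ‖ ≤ AA r C * ‖b - b'‖ :=
    (lip h.h4 (s2d h.gd (h.half ha') (h.half hχ)) (fun u hu => h.gb (h.half ha') hu (h.hq hχ))
      (h.hq hb) (h.hq hb')).trans (mul_le_mul_of_nonneg_right h.B2 (norm_nonneg _))
  calc ‖g a b χ - g a' b' χ‖ = ‖(g a b χ - g a' b χ) + (g a' b χ - g a' b' χ)‖ := by ring_nf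
    _ ≤ _ := (norm_add_le _ _).trans (by linarith)

lemma gda {a b : ℂ} (ha : a ∈ Rc (r / 2) (r / 2)) (hb : b ∈ Rc (r / 2) (r / 2)) {χ : ℂ}
    (hχ : χ ∈ Rc (r / 2) (r / 2)) : ‖deriv (fun w => g a b w) χ‖ ≤ AA r C := by
  have h4 := h.h4
  refine (cau (R := r - r / 4) (δ := r / 4) (B := C / (r / 4)) h4
    ((s3d h.gd (h.half ha) (h.half hb)).mono fun _ hz => Rc_mo (by linarith) hz)
    (fun u hu => h.gb (h.half ha) (h.half hb) hu) ?_).trans h.B2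
  exact Rc_mo (by linarith) hχ

/-- `f` is even in the last variable. -/
lemma fev {a b χ : ℂ} (ha : a ∈ Rc r r) (hb : b ∈ Rc r r) (hχ : χ ∈ Rc r r) :
    f a b (-χ) = f a b χ := by
  have h1 := h.f1 a ha b hb (-χ) (Rc_ne hχ)
  have h2 := h.f1 a ha b hb χ hχ
  refine (h1.congr_of_eventuallyEq ?_).unique h2 |>.symm ▸ rfl
  filter_upwards [(Rc_isOpen r r).mem_nhds ha] with w hw
  exact (h.evc w hw b hb χ hχ).symm

/-- `f` vanishes at the origin of the first variable. -/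
lemma f0 {b χ : ℂ} (hb : b ∈ Rc r r) (hχ : χ ∈ Rc r r) : f 0 b χ = 0 := by
  have m0 : (0 : ℂ) ∈ Rc r r := Rc_no (by simpa using h.hr)
  have h1 := h.f1 0 m0 b hb χ hχ
  have h2 : HasDerivAt (fun w : ℂ => s (-w) b χ) (-f 0 b χ) 0 := by
    have h3 : HasDerivAt (fun w => s w b χ) (f 0 b χ) (-(0 : ℂ)) := by simpa using h1
    have h4 := h3.comp (0 : ℂ) (hasDerivAt_neg (0 : ℂ))
    rw [mul_neg_one] at h4
    exact h4
  have h3 : HasDerivAt (fun w : ℂ => s w b χ) (-f 0 b χ) 0 := by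
    refine h2.congr_of_eventuallyEq ?_
    filter_upwards [(Rc_isOpen r r).mem_nhds m0] with w hw
    exact (h.ev w hw b hb χ hχ).symm
  have := h1.unique h3
  linear_combination (1 / 2 : ℂ) * this

end Sys

end Pool.Agent.Y508.CH
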