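import Pool.Agent.Y508.CH.Ab

set_option autoImplicit false

/-!
Job CB3-H-GPA (project CB3 of helper472): the fixed point as a holomorphic function of `χ`.
-/

namespace Pool.Agent.Y508.CH

open Finset Filter Topology Metric
open Pool.Agent.W711.HT
open scoped Real

/-- predecessor in the ring -/
def pr (n j : ℕ) : ℕ := (j + (n - 1)) % n

/-- successor in the ring -/
def su (n j : ℕ) : ℕ := (j + 1) % n

lemma pr_lt {n : ℕ} (hn : 2 ≤ n) (j : ℕ) : pr n j < n := Nat.mod_lt _ (by omega)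

lemma su_lt {n : ℕ} (hn : 2 ≤ n) (j : ℕ) : su n j < n := Nat.mod_lt _ (by omega)

lemma pr_su {n : ℕ} (hn : 2 ≤ n) {j : ℕ} (hj : j < n) : pr n (su n j) = j := by
  unfold pr su
  rw [Nat.mod_add_mod, show j + 1 + (n - 1) = j + n by omega, Nat.add_mod_right,
    Nat.mod_eq_of_lt hj]

lemma su_pr {n : ℕ} (hn : 2 ≤ n) {j : ℕ} (hj : j < n) : su n (pr n j) = j := by
  unfold pr su
  rw [Nat.mod_add_mod, show j + (n - 1) + 1 = j + n by omega, Nat.add_mod_right,
    Nat.mod_eq_of_lt hj]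

/-- the iterates -/
noncomputable def it (f : ℂ → ℂ → ℂ → ℂ) (n : ℕ) (a : ℕ → ℤ) : ℕ → ℂ → ℕ → ℂ
  | 0, _, _ => 0
  | k + 1, χ, j => 2 * π * Complex.I / a j * (Complex.I +
      (f (it f n a k χ j) (it f n a k χ (pr n j)) χ + f (it f n a k χ j) (it f n a k χ (su n j)) χ))

lemma it_succ (f : ℂ → ℂ → ℂ → ℂ) (n : ℕ) (a : ℕ → ℤ) (k : ℕ) (χ : ℂ) (j : ℕ) :
    it f n a (k + 1) χ j = 2 * π * Complex.I / a j * (Complex.I +
      (f (it f n a k χ j) (it f n a k χ (pr n j)) χ + f (it f n a k χ j) (it f n a k χ (su n j)) χ)) :=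
  rfl

/-- size of the fixed point times `|a|` -/
noncomputable def K1 (r C : ℝ) : ℝ := 2 * π * (1 + 2 * Sys.AA r C)

/-- lower bound of the exponents -/
noncomputable def MM (r C c : ℝ) : ℝ :=
  1 + 8 * K1 r C / r + 10 * K1 r C + 16 * π * Sys.AA r C + 32 * Sys.AA r C * K1 r C / (r * c) +
    4 * Sys.AA r C ^ 2 * K1 r C / c

namespace Sys

variable {r C c : ℝ} {s f g : ℂ → ℂ → ℂ → ℂ}

section consts

variable (h : Sys r C c s f g)
include h

lemma K1_pos : 0 < K1 r C := by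
  have := h.AA_pos
  unfold K1
  positivity

lemma MM_1 : 1 ≤ MM r C c := by
  have := h.AA_pos
  have := h.K1_pos
  have := h.hr
  have := h.hc
  have e1 : 0 < 8 * K1 r C / r := by positivity
  have e2 : 0 < 16 * π * AA r C := by positivity
  have e3 : 0 < 32 * AA r C * K1 r C / (r * c) := by positivity
  have e4 : 0 < 4 * AA r C ^ 2 * K1 r C / c := by positivity
  unfold MM
  linarith

lemma MM_2 : K1 r C / MM r C c ≤ r / 8 := by
  have := h.AA_pos
  have hK := h.K1_pos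
  have hr := h.hr
  have := h.hc
  have hM : 0 < MM r C c := by linarith [h.MM_1]
  rw [div_le_iff₀ hM]
  have e2 : 0 < 16 * π * AA r C := by positivity
  have e3 : 0 < 32 * AA r C * K1 r C / (r * c) := by positivity
  have e4 : 0 < 4 * AA r C ^ 2 * K1 r C / c := by positivity
  have : 8 * K1 r C / r ≤ MM r C c := by
    unfold MM
    linarith
  calc K1 r C = r / 8 * (8 * K1 r C / r) := by field_simp
    _ ≤ _ := mul_le_mul_of_nonneg_left this (by positivity)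

lemma MM_3 : K1 r C / MM r C c ≤ 1 / 10 := by
  have := h.AA_pos
  have hK := h.K1_pos
  have hr := h.hr
  have := h.hc
  have hM : 0 < MM r C c := by linarith [h.MM_1]
  rw [div_le_iff₀ hM]
  have e1 : 0 < 8 * K1 r C / r := by positivity
  have e2 : 0 < 16 * π * AA r C := by positivity
  have e3 : 0 < 32 * AA r C * K1 r C / (r * c) := by positivity
  have e4 : 0 < 4 * AA r C ^ 2 * K1 r C / c := by positivity
  unfold MM
  linarith

lemma MM_4 : 2 * π / MM r C c * (4 * AA r C) ≤ 1 / 2 := by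
  have := h.AA_pos
  have hK := h.K1_pos
  have hr := h.hr
  have := h.hc
  have hM : 0 < MM r C c := by linarith [h.MM_1]
  rw [div_mul_eq_mul_div, div_le_iff₀ hM]
  have e1 : 0 < 8 * K1 r C / r := by positivity
  have e3 : 0 < 32 * AA r C * K1 r C / (r * c) := by positivity
  have e4 : 0 < 4 * AA r C ^ 2 * K1 r C / c := by positivity
  unfold MM
  linarith

lemma MM_5 : AA r C * (4 * (K1 r C / MM r C c)) / (r / 4) ≤ c / 2 := by
  have hA := h.AA_pos
  have hK := h.K1_pos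
  have hr := h.hr
  have hc := h.hc
  have hM : 0 < MM r C c := by linarith [h.MM_1]
  have e1 : 0 < 8 * K1 r C / r := by positivity
  have e2 : 0 < 16 * π * AA r C := by positivity
  have e4 : 0 < 4 * AA r C ^ 2 * K1 r C / c := by positivity
  have e3 : 32 * AA r C * K1 r C / (r * c) ≤ MM r C c := by
    unfold MM
    linarith
  rw [div_le_iff₀ (by positivity)] at e3
  rw [div_le_iff₀ (by positivity), mul_div_assoc', mul_div_assoc', div_le_iff₀ hM]
  nlinarith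

lemma MM_6 : 4 * AA r C ^ 2 * K1 r C / MM r C c ≤ c := by
  have hA := h.AA_pos
  have hK := h.K1_pos
  have hr := h.hr
  have hc := h.hc
  have hM : 0 < MM r C c := by linarith [h.MM_1]
  have e1 : 0 < 8 * K1 r C / r := by positivity
  have e2 : 0 < 16 * π * AA r C := by positivity
  have e3 : 0 < 32 * AA r C * K1 r C / (r * c) := by positivity
  have e4 : 4 * AA r C ^ 2 * K1 r C / c ≤ MM r C c := by
    unfold MM
    linarith
  rw [div_le_iff₀ hc] at e4
  rw [div_le_iff₀ hM]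
  linarith

end consts

variable {n : ℕ} {a : ℕ → ℤ}

section iter

variable (h : Sys r C c s f g) (hn : 2 ≤ n) (ha : ∀ j < n, MM r C c ≤ |(a j : ℝ)|)
include h hn ha

omit hn in
lemma apos {j : ℕ} (hj : j < n) : 0 < |(a j : ℝ)| := by
  linarith [h.MM_1, ha j hj]

omit hn in
lemma Ka {j : ℕ} (hj : j < n) : K1 r C / |(a j : ℝ)| ≤ K1 r C / MM r C c :=
  div_le_div_of_nonneg_left h.K1_pos.le (by linarith [h.MM_1]) (ha j hj)

omit hn in
lemma small {j : ℕ} (hj : j < n) {z : ℂ} (hz : ‖z‖ ≤ K1 r C / |(a j : ℝ)|) :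
    z ∈ Rc (r / 2) (r / 2) := by
  apply Rc_no
  have := h.Ka ha hj
  have := h.MM_2
  have := h.hr
  linarith

omit hn h ha in
lemma norm_pre (j : ℕ) : ‖2 * (π : ℂ) * Complex.I / (a j : ℂ)‖ = 2 * π / |(a j : ℝ)| := by
  rw [norm_div, norm_mul, norm_mul, Complex.norm_I, mul_one]
  congr 1
  · have h4 : ‖(π : ℂ)‖ = π := by simp [abs_of_pos Real.pi_pos]
    rw [h4]
    simp
  · rw [← Complex.ofReal_intCast, Complex.norm_real, Real.norm_eq_abs]

omit hn ha in
lemma step_bd {j : ℕ} {χ x y y' : ℂ} (hx : x ∈ Rc (r / 2) (r / 2))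
    (hy : y ∈ Rc (r / 2) (r / 2)) (hy' : y' ∈ Rc (r / 2) (r / 2)) (hχ : χ ∈ Rc (r / 2) (r / 2)) :
    ‖2 * (π : ℂ) * Complex.I / (a j : ℂ) * (Complex.I + (f x y χ + f x y' χ))‖ ≤
      K1 r C / |(a j : ℝ)| := by
  rw [norm_mul, norm_pre]
  have e1 : ‖Complex.I + (f x y χ + f x y' χ)‖ ≤ 1 + 2 * AA r C := by
    have h1 := norm_add_le Complex.I (f x y χ + f x y' χ)
    have h2 := norm_add_le (f x y χ) (f x y' χ)
    have h3 := h.fA hx hy hχ
    have h4 := h.fA hx hy' hχ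
    rw [Complex.norm_I] at h1
    linarith
  have e2 : K1 r C / |(a j : ℝ)| = 2 * π / |(a j : ℝ)| * (1 + 2 * AA r C) := by
    unfold K1
    ring
  rw [e2]
  exact mul_le_mul_of_nonneg_left e1 (by positivity)

lemma it_bd (k : ℕ) : ∀ χ ∈ Rc (r / 2) (r / 2), ∀ j < n,
    ‖it f n a k χ j‖ ≤ K1 r C / |(a j : ℝ)| := by
  induction k with
  | zero =>
    intro χ _ j hj
    have : it f n a 0 χ j = 0 := rfl
    rw [this, norm_zero]
    have := h.K1_pos
    positivity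
  | succ k ih =>
    intro χ hχ j hj
    rw [it_succ]
    exact h.step_bd (h.small ha hj (ih χ hχ j hj))
      (h.small ha (pr_lt hn j) (ih χ hχ _ (pr_lt hn j)))
      (h.small ha (su_lt hn j) (ih χ hχ _ (su_lt hn j))) hχ

lemma it_mem (k : ℕ) {χ : ℂ} (hχ : χ ∈ Rc (r / 2) (r / 2)) {j : ℕ} (hj : j < n) :
    it f n a k χ j ∈ Rc (r / 2) (r / 2) := h.small ha hj (h.it_bd hn ha k χ hχ j hj)

lemma it_diff (k : ℕ) : ∀ j < n, DifferentiableOn ℂ (fun χ => it f n a k χ j)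
    (Rc (r / 2) (r / 2)) := by
  induction k with
  | zero =>
    intro j _
    exact differentiableOn_const 0
  | succ k ih =>
    intro j hj
    have hm : ∀ i < n, ∀ χ ∈ Rc (r / 2) (r / 2), it f n a k χ i ∈ Rc r r :=
      fun i hi χ hχ => h.half (h.it_mem hn ha k hχ hi)
    have e1 := comp3 (χ := fun χ : ℂ => χ) h.fd (ih j hj) (ih _ (pr_lt hn j)) differentiableOn_id
      (hm j hj) (hm _ (pr_lt hn j)) (fun χ hχ => h.half hχ)
    have e2 := comp3 (χ := fun χ : ℂ => χ) h.fd (ih j hj) (ih _ (su_lt hn j)) differentiableOn_id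
      (hm j hj) (hm _ (su_lt hn j)) (fun χ hχ => h.half hχ)
    exact ((e1.fun_add e2).const_add Complex.I).const_mul (2 * π * Complex.I / a j)

omit hn in
lemma step_lip {j : ℕ} (hj : j < n) {χ x y y' u v v' : ℂ} (hx : x ∈ Rc (r / 2) (r / 2))
    (hy : y ∈ Rc (r / 2) (r / 2)) (hy' : y' ∈ Rc (r / 2) (r / 2)) (hu : u ∈ Rc (r / 2) (r / 2))
    (hv : v ∈ Rc (r / 2) (r / 2)) (hv' : v' ∈ Rc (r / 2) (r / 2)) (hχ : χ ∈ Rc (r / 2) (r / 2))
    {ε : ℝ} (e1 : ‖x - u‖ ≤ ε) (e2 : ‖y - v‖ ≤ ε) (e3 : ‖y' - v'‖ ≤ ε) :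
    ‖2 * (π : ℂ) * Complex.I / (a j : ℂ) * (Complex.I + (f x y χ + f x y' χ)) -
      2 * (π : ℂ) * Complex.I / (a j : ℂ) * (Complex.I + (f u v χ + f u v' χ))‖ ≤ 1 / 2 * ε := by
  have hA := h.AA_pos
  rw [← mul_sub, norm_mul, norm_pre]
  have hε : 0 ≤ ε := (norm_nonneg _).trans e1
  have h1 := h.fL hx hy hu hv hχ
  have h2 := h.fL hx hy' hu hv' hχ
  have h3 : ‖Complex.I + (f x y χ + f x y' χ) - (Complex.I + (f u v χ + f u v' χ))‖ ≤
      4 * AA r C * ε := by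
    have h4 : Complex.I + (f x y χ + f x y' χ) - (Complex.I + (f u v χ + f u v' χ)) =
        (f x y χ - f u v χ) + (f x y' χ - f u v' χ) := by ring
    rw [h4]
    have h5 := norm_add_le (f x y χ - f u v χ) (f x y' χ - f u v' χ)
    have h6 : AA r C * (‖x - u‖ + ‖y - v‖) ≤ AA r C * (2 * ε) :=
      mul_le_mul_of_nonneg_left (by linarith) hA.le
    have h7 : AA r C * (‖x - u‖ + ‖y' - v'‖) ≤ AA r C * (2 * ε) :=
      mul_le_mul_of_nonneg_left (by linarith) hA.le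
    linarith
  have h8 : 2 * π / |(a j : ℝ)| ≤ 2 * π / MM r C c :=
    div_le_div_of_nonneg_left (by positivity) (by linarith [h.MM_1]) (ha j hj)
  calc 2 * π / |(a j : ℝ)| * ‖Complex.I + (f x y χ + f x y' χ) -
        (Complex.I + (f u v χ + f u v' χ))‖
      ≤ 2 * π / MM r C c * (4 * AA r C * ε) := by
        apply mul_le_mul h8 h3 (norm_nonneg _)
        have := h.MM_1
        positivity
    _ = 2 * π / MM r C c * (4 * AA r C) * ε := by ring
    _ ≤ _ := mul_le_mul_of_nonneg_right h.MM_4 hε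

lemma it_step (k : ℕ) : ∀ χ ∈ Rc (r / 2) (r / 2), ∀ j < n,
    ‖it f n a (k + 1) χ j - it f n a k χ j‖ ≤ r * (1 / 2) ^ k := by
  induction k with
  | zero =>
    intro χ hχ j hj
    have : it f n a 0 χ j = 0 := rfl
    rw [this, sub_zero]
    have h1 := h.it_bd hn ha 1 χ hχ j hj
    have h2 := h.Ka ha hj
    have h3 := h.MM_2
    have := h.hr
    simp only [zero_add, pow_zero, mul_one]
    linarith
  | succ k ih =>
    intro χ hχ j hj
    rw [it_succ f n a (k + 1), it_succ f n a k]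
    have := h.step_lip ha hj (h.it_mem hn ha (k + 1) hχ hj)
      (h.it_mem hn ha (k + 1) hχ (pr_lt hn j)) (h.it_mem hn ha (k + 1) hχ (su_lt hn j))
      (h.it_mem hn ha k hχ hj) (h.it_mem hn ha k hχ (pr_lt hn j))
      (h.it_mem hn ha k hχ (su_lt hn j)) hχ (ih χ hχ j hj) (ih χ hχ _ (pr_lt hn j))
      (ih χ hχ _ (su_lt hn j))
    refine this.trans (le_of_eq ?_)
    rw [pow_succ]
    ring

end iter

end Sys

/-- the fixed point -/
noncomputable def zf (f : ℂ → ℂ → ℂ → ℂ) (n : ℕ) (a : ℕ → ℤ) (χ : ℂ) (j : ℕ) : ℂ :=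
  limUnder atTop (fun k => it f n a k χ j)

namespace Sys

variable {r C c : ℝ} {s f g : ℂ → ℂ → ℂ → ℂ} {n : ℕ} {a : ℕ → ℤ}
variable (h : Sys r C c s f g) (hn : 2 ≤ n) (ha : ∀ j < n, MM r C c ≤ |(a j : ℝ)|)
include h hn ha

lemma z_tends {χ : ℂ} (hχ : χ ∈ Rc (r / 2) (r / 2)) {j : ℕ} (hj : j < n) :
    Tendsto (fun k => it f n a k χ j) atTop (𝓝 (zf f n a χ j)) := by
  have hc : CauchySeq fun k => it f n a k χ j := by
    refine cauchySeq_of_le_geometric (1 / 2) r (by norm_num) fun k => ?_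
    rw [dist_comm, dist_eq_norm]
    exact h.it_step hn ha k χ hχ j hj
  exact hc.tendsto_limUnder

lemma z_dist (k : ℕ) {χ : ℂ} (hχ : χ ∈ Rc (r / 2) (r / 2)) {j : ℕ} (hj : j < n) :
    dist (it f n a k χ j) (zf f n a χ j) ≤ r * (1 / 2) ^ k / (1 - 1 / 2) := by
  refine dist_le_of_le_geometric_of_tendsto (1 / 2) r (by norm_num) (fun k => ?_)
    (h.z_tends hn ha hχ hj) k
  rw [dist_comm, dist_eq_norm]
  exact h.it_step hn ha k χ hχ j hj

lemma z_diff {j : ℕ} (hj : j < n) : DifferentiableOn ℂ (fun χ => zf f n a χ j)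
    (Rc (r / 2) (r / 2)) := by
  have hu : TendstoUniformlyOn (fun k χ => it f n a k χ j) (fun χ => zf f n a χ j) atTop
      (Rc (r / 2) (r / 2)) := by
    rw [Metric.tendstoUniformlyOn_iff]
    intro ε hε
    have h1 : Tendsto (fun k : ℕ => r * (1 / 2 : ℝ) ^ k / (1 - 1 / 2)) atTop
        (𝓝 (r * 0 / (1 - 1 / 2))) :=
      ((tendsto_pow_atTop_nhds_zero_of_lt_one (by norm_num) (by norm_num)).const_mul r).div_const _
    have h2 : r * 0 / (1 - 1 / 2) < ε := by simpa using hε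
    filter_upwards [h1.eventually_lt_const h2] with k hk χ hχ
    rw [dist_comm]
    exact (h.z_dist hn ha k hχ hj).trans_lt hk
  exact hu.tendstoLocallyUniformlyOn.differentiableOn
    (Eventually.of_forall fun k => h.it_diff hn ha k j hj) (Rc_isOpen _ _)

lemma z_bd {χ : ℂ} (hχ : χ ∈ Rc (r / 2) (r / 2)) {j : ℕ} (hj : j < n) :
    ‖zf f n a χ j‖ ≤ K1 r C / |(a j : ℝ)| :=
  le_of_tendsto (h.z_tends hn ha hχ hj).norm
    (Eventually.of_forall fun k => h.it_bd hn ha k χ hχ j hj)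

lemma z_mem {χ : ℂ} (hχ : χ ∈ Rc (r / 2) (r / 2)) {j : ℕ} (hj : j < n) :
    zf f n a χ j ∈ Rc (r / 2) (r / 2) := h.small ha hj (h.z_bd hn ha hχ hj)

omit hn ha in
lemma f_tends {χ : ℂ} (hχ : χ ∈ Rc (r / 2) (r / 2)) {u v : ℕ → ℂ} {x y : ℂ}
    (hx : x ∈ Rc (r / 2) (r / 2)) (hy : y ∈ Rc (r / 2) (r / 2))
    (hu : Tendsto u atTop (𝓝 x)) (hv : Tendsto v atTop (𝓝 y)) :
    Tendsto (fun k => f (u k) (v k) χ) atTop (𝓝 (f x y χ)) := by
  have ho : IsOpen (Rc r r ×ˢ Rc r r ×ˢ Rc r r) :=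
    (Rc_isOpen r r).prod ((Rc_isOpen r r).prod (Rc_isOpen r r))
  have hc : ContinuousAt (fun p : ℂ × ℂ × ℂ => f p.1 p.2.1 p.2.2) (x, y, χ) :=
    (h.fd.differentiableAt (ho.mem_nhds ⟨h.half hx, h.half hy, h.half hχ⟩)).continuousAt
  have ht : Tendsto (fun k => ((u k, v k, χ) : ℂ × ℂ × ℂ)) atTop (𝓝 (x, y, χ)) :=
    hu.prodMk_nhds (hv.prodMk_nhds tendsto_const_nhds)
  exact hc.tendsto.comp ht

/-- the fixed point equation -/
lemma z_fix {χ : ℂ} (hχ : χ ∈ Rc (r / 2) (r / 2)) {j : ℕ} (hj : j < n) :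
    zf f n a χ j = 2 * π * Complex.I / a j * (Complex.I +
      (f (zf f n a χ j) (zf f n a χ (pr n j)) χ + f (zf f n a χ j) (zf f n a χ (su n j)) χ)) := by
  have hp := pr_lt hn j
  have hs := su_lt hn j
  have t0 := h.z_tends hn ha hχ hj
  have t1 := h.f_tends hχ (h.z_mem hn ha hχ hj) (h.z_mem hn ha hχ hp) t0 (h.z_tends hn ha hχ hp)
  have t2 := h.f_tends hχ (h.z_mem hn ha hχ hj) (h.z_mem hn ha hχ hs) t0 (h.z_tends hn ha hχ hs)
  have t3 : Tendsto (fun k => it f n a (k + 1) χ j) atTop (𝓝 (2 * π * Complex.I / a j *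
      (Complex.I + (f (zf f n a χ j) (zf f n a χ (pr n j)) χ +
        f (zf f n a χ j) (zf f n a χ (su n j)) χ)))) :=
    ((t1.add t2).const_add Complex.I).const_mul _
  exact tendsto_nhds_unique (t0.comp (tendsto_add_atTop_nat 1)) t3

lemma crit {χ : ℂ} (hχ : χ ∈ Rc (r / 2) (r / 2)) {j : ℕ} (hj : j < n) :
    Complex.I * a j * zf f n a χ j / (2 * π) + Complex.I +
      (f (zf f n a χ j) (zf f n a χ (pr n j)) χ + f (zf f n a χ j) (zf f n a χ (su n j)) χ) = 0 := by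
  have h1 := h.z_fix hn ha hχ hj
  have ha0 : (a j : ℂ) ≠ 0 := by
    have h2 := h.apos ha hj
    intro h0
    have h3 : (a j : ℝ) = 0 := by exact_mod_cast h0
    rw [h3, abs_zero] at h2
    exact lt_irrefl _ h2
  have hπ : (π : ℂ) ≠ 0 := by exact_mod_cast Real.pi_ne_zero
  set w := f (zf f n a χ j) (zf f n a χ (pr n j)) χ + f (zf f n a χ j) (zf f n a χ (su n j)) χ
  rw [h1]
  field_simp
  linear_combination (Complex.I + w) * Complex.I_sq

lemma it_even (k : ℕ) : ∀ χ ∈ Rc (r / 2) (r / 2), ∀ j < n,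
    it f n a k (-χ) j = it f n a k χ j := by
  induction k with
  | zero => intro χ _ j _; rfl
  | succ k ih =>
    intro χ hχ j hj
    rw [it_succ, it_succ, ih χ hχ j hj, ih χ hχ _ (pr_lt hn j), ih χ hχ _ (su_lt hn j),
      h.fev (h.half (h.it_mem hn ha k hχ hj)) (h.half (h.it_mem hn ha k hχ (pr_lt hn j)))
        (h.half hχ),
      h.fev (h.half (h.it_mem hn ha k hχ hj)) (h.half (h.it_mem hn ha k hχ (su_lt hn j)))
        (h.half hχ)]

lemma z_even {χ : ℂ} (hχ : χ ∈ Rc (r / 2) (r / 2)) {j : ℕ} (hj : j < n) :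
    zf f n a (-χ) j = zf f n a χ j := by
  have h1 := h.z_tends hn ha hχ hj
  have h2 := h.z_tends hn ha (Rc_ne hχ) hj
  refine tendsto_nhds_unique h2 (h1.congr fun k => ?_)
  exact (h.it_even hn ha k χ hχ j hj).symm

end Sys

end Pool.Agent.Y508.CH
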