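import Pool.Agent.Y508.CH.Fp

set_option autoImplicit false

/-!
Job CB3-H-GPA (project CB3 of helper472): the critical value as a function of `χ`.
-/

namespace Pool.Agent.Y508.CH

open Finset Filter Topology Metric
open Pool.Agent.W711.HT
open scoped Real

lemma real_mvt {φ : ℂ → ℂ} {R c : ℝ} (hR : 0 < R) (hd : DifferentiableOn ℂ φ (Rc R R))
    (hc : ∀ u ∈ Rc R R, (deriv φ u).re ≤ -c) (h0 : φ 0 = 0) {x : ℝ} (hx : |x| < R) :
    x * (φ x).re ≤ -c * x ^ 2 := by
  have hmem : ∀ y : ℝ, y ∈ Set.Ioo (-R) R → (y : ℂ) ∈ Rc R R := by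
    intro y hy
    refine ⟨?_, ?_⟩
    · simpa [abs_lt] using hy
    · simpa using hR
  have hder : ∀ y ∈ Set.Ioo (-R) R, HasDerivAt (fun y : ℝ => (φ y).re) (deriv φ y).re y := by
    intro y hy
    exact ((hd.differentiableAt ((Rc_isOpen R R).mem_nhds (hmem y hy))).hasDerivAt).real_of_complex
  have key := Convex.image_sub_le_mul_sub_of_deriv_le (convex_Ioo (-R) R)
    (f := fun y : ℝ => (φ y).re) (C := -c)
    (fun y hy => (hder y hy).continuousAt.continuousWithinAt)
    (fun y hy => by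
      rw [interior_Ioo] at hy
      exact (hder y hy).differentiableAt.differentiableWithinAt)
    (fun y hy => by
      rw [interior_Ioo] at hy
      rw [(hder y hy).deriv]
      exact hc _ (hmem y hy))
  have m0 : (0 : ℝ) ∈ Set.Ioo (-R) R := ⟨by linarith, hR⟩
  have mx : x ∈ Set.Ioo (-R) R := abs_lt.1 hx
  have e0 : (φ ((0 : ℝ) : ℂ)).re = 0 := by simp [h0]
  rcases le_total 0 x with h | h
  · have h1 := key 0 m0 x mx h
    simp only [e0, sub_zero] at h1
    nlinarith
  · have h1 := key x mx 0 m0 h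
    simp only [e0, zero_sub] at h1
    nlinarith

namespace Sys

variable {r C c : ℝ} {s f g : ℂ → ℂ → ℂ → ℂ}

/-- chain rule for a function of three variables -/
lemma chain (h : Sys r C c s f g) {u v w : ℂ → ℂ} {u' v' w' t : ℂ} (hu : HasDerivAt u u' t)
    (hv : HasDerivAt v v' t) (hw : HasDerivAt w w' t) (mu : u t ∈ Rc r r) (mv : v t ∈ Rc r r)
    (mw : w t ∈ Rc r r) : HasDerivAt (fun t => s (u t) (v t) (w t))
      (u' * f (u t) (v t) (w t) + v' * f (v t) (u t) (w t) + w' * g (u t) (v t) (w t)) t := by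
  have ho : IsOpen (Rc r r ×ˢ Rc r r ×ˢ Rc r r) :=
    (Rc_isOpen r r).prod ((Rc_isOpen r r).prod (Rc_isOpen r r))
  have hF : HasFDerivAt (fun p : ℂ × ℂ × ℂ => s p.1 p.2.1 p.2.2)
      (fderiv ℂ (fun p : ℂ × ℂ × ℂ => s p.1 p.2.1 p.2.2) (u t, v t, w t)) (u t, v t, w t) :=
    (h.sd.differentiableAt (ho.mem_nhds ⟨mu, mv, mw⟩)).hasFDerivAt
  set L := fderiv ℂ (fun p : ℂ × ℂ × ℂ => s p.1 p.2.1 p.2.2) (u t, v t, w t)
  have k1 : L (1, 0, 0) = f (u t) (v t) (w t) := by
    have h1 : HasDerivAt (fun z : ℂ => (z, v t, w t)) ((1, 0, 0) : ℂ × ℂ × ℂ) (u t) :=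
      (hasDerivAt_id (u t)).prodMk ((hasDerivAt_const (u t) (v t)).prodMk
        (hasDerivAt_const (u t) (w t)))
    have h2 : HasDerivAt ((fun p : ℂ × ℂ × ℂ => s p.1 p.2.1 p.2.2) ∘ fun z : ℂ => (z, v t, w t))
        (L (1, 0, 0)) (u t) := HasFDerivAt.comp_hasDerivAt (u t) hF h1
    exact HasDerivAt.unique h2 (h.f1 _ mu _ mv _ mw)
  have k2 : L (0, 1, 0) = f (v t) (u t) (w t) := by
    have h1 : HasDerivAt (fun z : ℂ => (u t, z, w t)) ((0, 1, 0) : ℂ × ℂ × ℂ) (v t) :=
      (hasDerivAt_const (v t) (u t)).prodMk ((hasDerivAt_id (v t)).prodMk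
        (hasDerivAt_const (v t) (w t)))
    have h2 : HasDerivAt ((fun p : ℂ × ℂ × ℂ => s p.1 p.2.1 p.2.2) ∘ fun z : ℂ => (u t, z, w t))
        (L (0, 1, 0)) (v t) := HasFDerivAt.comp_hasDerivAt (v t) hF h1
    exact HasDerivAt.unique h2 (h.f2 _ mu _ mv _ mw)
  have k3 : L (0, 0, 1) = g (u t) (v t) (w t) := by
    have h1 : HasDerivAt (fun z : ℂ => (u t, v t, z)) ((0, 0, 1) : ℂ × ℂ × ℂ) (w t) :=
      (hasDerivAt_const (w t) (u t)).prodMk ((hasDerivAt_const (w t) (v t)).prodMk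
        (hasDerivAt_id (w t)))
    have h2 : HasDerivAt ((fun p : ℂ × ℂ × ℂ => s p.1 p.2.1 p.2.2) ∘ fun z : ℂ => (u t, v t, z))
        (L (0, 0, 1)) (w t) := HasFDerivAt.comp_hasDerivAt (w t) hF h1
    exact HasDerivAt.unique h2 (h.g1 _ mu _ mv _ mw)
  have h1 : HasDerivAt (fun x => (u x, v x, w x)) ((u', v', w') : ℂ × ℂ × ℂ) t :=
    hu.prodMk (hv.prodMk hw)
  have h2 : HasDerivAt ((fun p : ℂ × ℂ × ℂ => s p.1 p.2.1 p.2.2) ∘ fun x => (u x, v x, w x))
      (L (u', v', w')) t := HasFDerivAt.comp_hasDerivAt t hF h1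
  have h3 : ((u', v', w') : ℂ × ℂ × ℂ) = u' • (1, 0, 0) + v' • (0, 1, 0) + w' • (0, 0, 1) := by
    simp
  rw [h3, map_add, map_add, map_smul, map_smul, map_smul, k1, k2, k3] at h2
  simp only [smul_eq_mul] at h2
  exact h2

variable {n : ℕ} {a : ℕ → ℤ}
variable (h : Sys r C c s f g) (hn : 2 ≤ n) (ha : ∀ j < n, MM r C c ≤ |(a j : ℝ)|)
include h hn ha

/-! ### The imaginary part -/

lemma im_pos {χ : ℂ} (hχ : χ ∈ Rc (r / 2) (r / 2)) {j : ℕ} (hj : j < n) :
    0 < (zf f n a χ j).im := by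
  have hA := h.AA_pos
  have hr := h.hr
  have hc := h.hc
  have hK := h.K1_pos
  have hpos := h.apos ha hj
  have hfix := h.z_fix hn ha hχ hj
  have hz := h.z_mem hn ha hχ hj
  have hzb := h.z_bd hn ha hχ hj
  have hp := h.z_mem hn ha hχ (pr_lt hn j)
  have hq := h.z_mem hn ha hχ (su_lt hn j)
  set z := zf f n a χ j with hzdef
  set p := zf f n a χ (pr n j)
  set q := zf f n a χ (su n j)
  set x : ℝ := -(2 * π / a j) with hx
  have ha0 : (a j : ℝ) ≠ 0 := fun h0 => by rw [h0, abs_zero] at hpos; exact lt_irrefl _ hpos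
  have hxabs : |x| = 2 * π / |(a j : ℝ)| := by
    rw [hx, abs_neg, abs_div, abs_of_pos (by positivity : (0 : ℝ) < 2 * π)]
  have hxK : |x| ≤ K1 r C / |(a j : ℝ)| := by
    rw [hxabs]
    apply div_le_div_of_nonneg_right _ hpos.le
    unfold K1
    nlinarith [Real.pi_pos]
  have hxm : (x : ℂ) ∈ Rc (r / 2) (r / 2) :=
    h.small ha hj (by rw [Complex.norm_real, Real.norm_eq_abs]; exact hxK)
  have m0 : (0 : ℂ) ∈ Rc (r / 2) (r / 2) := Rc_no (by simpa using half_pos hr)
  set φ : ℂ → ℂ := fun u => f u p χ + f u q χ with hφ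
  have hdp : DifferentiableOn ℂ (fun u => f u p χ) (Rc (r / 2) (r / 2)) :=
    (s1d h.fd (h.half hp) (h.half hχ)).mono fun _ hz => h.half hz
  have hdq : DifferentiableOn ℂ (fun u => f u q χ) (Rc (r / 2) (r / 2)) :=
    (s1d h.fd (h.half hq) (h.half hχ)).mono fun _ hz => h.half hz
  have key := real_mvt (φ := φ) (c := 2 * c) (half_pos hr) (hdp.fun_add hdq) (fun u hu => by
      have hmem := (Rc_isOpen (r / 2) (r / 2)).mem_nhds hu
      have e := deriv_fun_add (hdp.differentiableAt hmem) (hdq.differentiableAt hmem)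
      have e1 := h.fc u (h.half hu) p (h.half hp) χ (h.half hχ)
      have e2 := h.fc u (h.half hu) q (h.half hq) χ (h.half hχ)
      rw [hφ, e, Complex.add_re]
      linarith) (by
      show f 0 p χ + f 0 q χ = 0
      rw [h.f0 (h.half hp) (h.half hχ), h.f0 (h.half hq) (h.half hχ), add_zero]) (x := x) (by
      have := hxm.1
      simpa using this)
  -- the value at `z`
  have hD : ‖φ z‖ ≤ 2 * AA r C * ‖z‖ := by
    have e1 := h.fL hz hp m0 hp hχ
    have e2 := h.fL hz hq m0 hq hχ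
    rw [h.f0 (h.half hp) (h.half hχ), sub_self, norm_zero, sub_zero, sub_zero, add_zero] at e1
    rw [h.f0 (h.half hq) (h.half hχ), sub_self, norm_zero, sub_zero, sub_zero, add_zero] at e2
    calc ‖φ z‖ ≤ _ := norm_add_le _ _
      _ ≤ _ := by linarith
  have hzx : z = x + (-(x : ℂ)) * Complex.I * φ z := by
    have e : (x : ℂ) = -(2 * π / a j) := by rw [hx]; push_cast; ring
    have e2 : z = 2 * π * Complex.I / a j * (Complex.I + φ z) := hfix
    rw [e]
    calc z = 2 * π * Complex.I / a j * (Complex.I + φ z) := e2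
      _ = (2 * π / a j) * (Complex.I * Complex.I) + (2 * π / a j) * Complex.I * φ z := by ring
      _ = _ := by rw [Complex.I_mul_I]; ring
  have hdist : ‖z - x‖ ≤ |x| * (2 * AA r C * (K1 r C / |(a j : ℝ)|)) := by
    have e : z - x = (-(x : ℂ)) * Complex.I * φ z := by
      nth_rewrite 1 [hzx]
      ring
    rw [e, norm_mul, norm_mul, norm_neg, Complex.norm_I, mul_one, Complex.norm_real,
      Real.norm_eq_abs]
    apply mul_le_mul_of_nonneg_left _ (abs_nonneg x)
    exact hD.trans (mul_le_mul_of_nonneg_left hzb (by positivity))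
  have hφd : ‖φ z - φ x‖ ≤ 2 * AA r C * ‖z - x‖ := by
    have e1 := h.fL hz hp hxm hp hχ
    have e2 := h.fL hz hq hxm hq hχ
    rw [sub_self, norm_zero, add_zero] at e1 e2
    have e3 : φ z - φ x = (f z p χ - f x p χ) + (f z q χ - f x q χ) := by
      show (f z p χ + f z q χ) - (f x p χ + f x q χ) = _
      ring
    rw [e3]
    refine (norm_add_le _ _).trans ?_
    linarith
  have him : z.im = -x * (φ z).re := by
    have e := congrArg Complex.im hzx
    rw [e]
    simp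
  have hMM : AA r C * (4 * AA r C * (K1 r C / |(a j : ℝ)|)) ≤ c := by
    have e1 := h.Ka ha hj
    have e2 := h.MM_6
    calc AA r C * (4 * AA r C * (K1 r C / |(a j : ℝ)|))
        ≤ AA r C * (4 * AA r C * (K1 r C / MM r C c)) := by
          apply mul_le_mul_of_nonneg_left _ hA.le
          exact mul_le_mul_of_nonneg_left e1 (by positivity)
      _ = 4 * AA r C ^ 2 * K1 r C / MM r C c := by ring
      _ ≤ c := e2
  have e4 : |x * ((φ z).re - (φ x).re)| ≤ c * x ^ 2 := by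
    rw [abs_mul, ← Complex.sub_re]
    have e5 := Complex.abs_re_le_norm (φ z - φ x)
    calc |x| * |(φ z - φ x).re| ≤ |x| * (2 * AA r C * (|x| * (2 * AA r C *
          (K1 r C / |(a j : ℝ)|)))) := by
          apply mul_le_mul_of_nonneg_left _ (abs_nonneg x)
          exact e5.trans (hφd.trans (mul_le_mul_of_nonneg_left hdist (by positivity)))
      _ = |x| ^ 2 * (AA r C * (4 * AA r C * (K1 r C / |(a j : ℝ)|))) := by ring
      _ ≤ |x| ^ 2 * c := mul_le_mul_of_nonneg_left hMM (by positivity)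
      _ = c * x ^ 2 := by rw [sq_abs]; ring
  have hx2 : 0 < x ^ 2 := by
    have : x ≠ 0 := by
      intro h0
      rw [h0, abs_zero] at hxabs
      have : 0 < 2 * π / |(a j : ℝ)| := by positivity
      linarith
    positivity
  rw [him]
  have e6 := (abs_le.1 e4).2
  nlinarith

end Sys

/-! ### The critical value -/

/-- the critical value -/
noncomputable def GG (s : ℂ → ℂ → ℂ → ℂ) (n : ℕ) (a : ℕ → ℤ) (z : ℂ → ℕ → ℂ) (χ : ℂ) : ℂ :=
  ∑ j ∈ range n, (Complex.I * a j * z χ j ^ 2 / (4 * π) + Complex.I * z χ j +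
    s (z χ j) (z χ ((j + 1) % n)) χ)

lemma sum_su {M : Type*} [AddCommMonoid M] {n : ℕ} (hn : 2 ≤ n) (F : ℕ → M) :
    ∑ j ∈ range n, F (su n j) = ∑ j ∈ range n, F j := by
  refine Finset.sum_nbij' (su n) (pr n) ?_ ?_ ?_ ?_ ?_
  · intro j _; exact mem_range.2 (su_lt hn j)
  · intro j _; exact mem_range.2 (pr_lt hn j)
  · intro j hj; exact pr_su hn (mem_range.1 hj)
  · intro j hj; exact su_pr hn (mem_range.1 hj)
  · intro j _; rfl

namespace Sys

variable {r C c : ℝ} {s f g : ℂ → ℂ → ℂ → ℂ} {n : ℕ} {a : ℕ → ℤ}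
variable (h : Sys r C c s f g) (hn : 2 ≤ n) (ha : ∀ j < n, MM r C c ≤ |(a j : ℝ)|)
include h hn ha

/-- envelope theorem -/
lemma G_der {χ : ℂ} (hχ : χ ∈ Rc (r / 2) (r / 2)) : HasDerivAt (GG s n a (zf f n a))
    (∑ j ∈ range n, g (zf f n a χ j) (zf f n a χ ((j + 1) % n)) χ) χ := by
  set z := zf f n a with hz
  have hopen := (Rc_isOpen (r / 2) (r / 2)).mem_nhds hχ
  have hd : ∀ j < n, HasDerivAt (fun χ => z χ j) (deriv (fun χ => z χ j) χ) χ :=
    fun j hj => ((h.z_diff hn ha hj).differentiableAt hopen).hasDerivAt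
  set z' : ℕ → ℂ := fun j => deriv (fun χ => z χ j) χ with hz'
  have ht : ∀ j ∈ range n, HasDerivAt (fun χ => Complex.I * a j * z χ j ^ 2 / (4 * π) +
      Complex.I * z χ j + s (z χ j) (z χ ((j + 1) % n)) χ)
      (Complex.I * a j * (2 * z χ j * z' j) / (4 * π) + Complex.I * z' j +
        (z' j * f (z χ j) (z χ (su n j)) χ + z' (su n j) * f (z χ (su n j)) (z χ j) χ +
          1 * g (z χ j) (z χ (su n j)) χ)) χ := by
    intro j hj
    have hj' := mem_range.1 hj
    have hs := su_lt hn j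
    have e1 : HasDerivAt (fun χ => z χ j ^ 2) (2 * z χ j * z' j) χ := by
      have h1 := (hd j hj').fun_pow 2
      simpa using h1
    have e2 := ((e1.const_mul (Complex.I * a j)).div_const (4 * (π : ℂ)))
    have e3 := (hd j hj').const_mul Complex.I
    have e4 := h.chain (hd j hj') (hd _ hs) (hasDerivAt_id' χ)
      (h.half (h.z_mem hn ha hχ hj')) (h.half (h.z_mem hn ha hχ hs)) (h.half hχ)
    exact (e2.add e3).add e4
  have hsum := HasDerivAt.fun_sum ht
  have e : (∑ j ∈ range n, (Complex.I * a j * (2 * z χ j * z' j) / (4 * π) + Complex.I * z' j +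
        (z' j * f (z χ j) (z χ (su n j)) χ + z' (su n j) * f (z χ (su n j)) (z χ j) χ +
          1 * g (z χ j) (z χ (su n j)) χ))) =
      ∑ j ∈ range n, g (z χ j) (z χ ((j + 1) % n)) χ := by
    have e1 : ∑ j ∈ range n, z' (su n j) * f (z χ (su n j)) (z χ j) χ =
        ∑ j ∈ range n, z' j * f (z χ j) (z χ (pr n j)) χ := by
      rw [← sum_su hn fun j => z' j * f (z χ j) (z χ (pr n j)) χ]
      refine sum_congr rfl fun j hj => ?_
      simp only [pr_su hn (mem_range.1 hj)]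
    have e2 : ∑ j ∈ range n, z' j * (Complex.I * a j * z χ j / (2 * π) + Complex.I +
        (f (z χ j) (z χ (pr n j)) χ + f (z χ j) (z χ (su n j)) χ)) = 0 := by
      refine sum_eq_zero fun j hj => ?_
      rw [h.crit hn ha hχ (mem_range.1 hj), mul_zero]
    have e3 : ∀ j, Complex.I * a j * (2 * z χ j * z' j) / (4 * (π : ℂ)) =
        z' j * (Complex.I * a j * z χ j / (2 * π)) := by
      intro j
      have hπ : (π : ℂ) ≠ 0 := by exact_mod_cast Real.pi_ne_zero
      field_simp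
      ring
    simp only [mul_add, sum_add_distrib] at e2
    simp only [sum_add_distrib, e1, e3, one_mul]
    have e4 : ∑ j ∈ range n, Complex.I * z' j = ∑ j ∈ range n, z' j * Complex.I :=
      sum_congr rfl fun j _ => mul_comm _ _
    rw [e4]
    have e5 : ∑ j ∈ range n, g (z χ j) (z χ (su n j)) χ =
      ∑ j ∈ range n, g (z χ j) (z χ ((j + 1) % n)) χ := rfl
    rw [← e5]
    linear_combination e2
  rw [e] at hsum
  exact hsum

lemma G_diff : DifferentiableOn ℂ (GG s n a (zf f n a)) (Rc (r / 2) (r / 2)) :=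
  fun _ hχ => (h.G_der hn ha hχ).differentiableAt.differentiableWithinAt

lemma G_even {χ : ℂ} (hχ : χ ∈ Rc (r / 2) (r / 2)) :
    GG s n a (zf f n a) (-χ) = GG s n a (zf f n a) χ := by
  unfold GG
  refine sum_congr rfl fun j hj => ?_
  have hj' := mem_range.1 hj
  have hs : (j + 1) % n < n := su_lt hn j
  rw [h.z_even hn ha hχ hj', h.z_even hn ha hχ hs, h.evc _ (h.half (h.z_mem hn ha hχ hj')) _
    (h.half (h.z_mem hn ha hχ hs)) _ (h.half hχ)]

/-- the second derivative of one term -/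
lemma term2 {χ : ℂ} (hχ : χ ∈ Rc (r / 4) (r / 4)) {i j : ℕ} (hi : i < n) (hj : j < n) :
    DifferentiableAt ℂ (fun w => g (zf f n a w i) (zf f n a w j) w) χ ∧
    (deriv (fun w => g (zf f n a w i) (zf f n a w j) w) χ).re ≤ -(c / 2) ∧
    ‖deriv (fun w => g (zf f n a w i) (zf f n a w j) w) χ‖ ≤ AA r C + c / 2 := by
  have hr := h.hr
  have hA := h.AA_pos
  have hχ' : χ ∈ Rc (r / 2) (r / 2) := Rc_mo (by linarith) hχ
  have mi := h.z_mem hn ha hχ' hi
  have mj := h.z_mem hn ha hχ' hj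
  set α := zf f n a χ i with hα
  set β := zf f n a χ j with hβ
  have hopen := (Rc_isOpen (r / 2) (r / 2)).mem_nhds hχ'
  have d1 : DifferentiableOn ℂ (fun w => g (zf f n a w i) (zf f n a w j) w)
      (Rc (r / 2) (r / 2)) :=
    comp3 (χ := fun χ : ℂ => χ) h.gd (h.z_diff hn ha hi) (h.z_diff hn ha hj) differentiableOn_id
      (fun χ hχ => h.half (h.z_mem hn ha hχ hi)) (fun χ hχ => h.half (h.z_mem hn ha hχ hj))
      (fun χ hχ => h.half hχ)
  have d2 : DifferentiableOn ℂ (fun w => g α β w) (Rc (r / 2) (r / 2)) :=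
    (s3d h.gd (h.half mi) (h.half mj)).mono fun _ hz => h.half hz
  have hk : ‖deriv (fun w => g (zf f n a w i) (zf f n a w j) w - g α β w) χ‖ ≤ c / 2 := by
    refine (cau (R := r / 2) (δ := r / 4) (B := AA r C * (4 * (K1 r C / MM r C c))) h.h4
      (d1.fun_sub d2) (fun w hw => ?_) (Rc_mo (by linarith) hχ)).trans h.MM_5
    refine (h.gL (h.z_mem hn ha hw hi) (h.z_mem hn ha hw hj) mi mj hw).trans ?_
    apply mul_le_mul_of_nonneg_left _ hA.le
    have b1 := (h.z_bd hn ha hw hi).trans (h.Ka ha hi)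
    have b2 := (h.z_bd hn ha hw hj).trans (h.Ka ha hj)
    have b3 := (h.z_bd hn ha hχ' hi).trans (h.Ka ha hi)
    have b4 := (h.z_bd hn ha hχ' hj).trans (h.Ka ha hj)
    have b5 := norm_sub_le (zf f n a w i) α
    have b6 := norm_sub_le (zf f n a w j) β
    linarith
  have e := deriv_fun_sub (d1.differentiableAt hopen) (d2.differentiableAt hopen)
  rw [e] at hk
  set X := deriv (fun w => g (zf f n a w i) (zf f n a w j) w) χ
  set Y := deriv (fun w => g α β w) χ with hY
  have y1 : Y.re ≤ -c := h.gc _ (h.half mi) _ (h.half mj) _ (h.half hχ')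
  have y2 : ‖Y‖ ≤ AA r C := h.gda mi mj hχ'
  refine ⟨d1.differentiableAt hopen, ?_, ?_⟩
  · have := (Complex.re_le_norm (X - Y)).trans hk
    rw [Complex.sub_re] at this
    linarith
  · have := norm_add_le (X - Y) Y
    rw [sub_add_cancel] at this
    linarith

lemma G_der2 {χ : ℂ} (hχ : χ ∈ Rc (r / 4) (r / 4)) :
    (deriv (deriv (GG s n a (zf f n a))) χ).re ≤ -(c / 2 * n) ∧
      ‖deriv (deriv (GG s n a (zf f n a))) χ‖ ≤ (AA r C + c / 2) * n := by
  have hr := h.hr
  have hχ' : χ ∈ Rc (r / 2) (r / 2) := Rc_mo (by linarith) hχ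
  have hopen := (Rc_isOpen (r / 2) (r / 2)).mem_nhds hχ'
  have e : deriv (GG s n a (zf f n a)) =ᶠ[𝓝 χ]
      fun w => ∑ j ∈ range n, g (zf f n a w j) (zf f n a w ((j + 1) % n)) w := by
    filter_upwards [hopen] with w hw
    exact (h.G_der hn ha hw).deriv
  have hdd : ∀ j ∈ range n, DifferentiableAt ℂ
      (fun w => g (zf f n a w j) (zf f n a w ((j + 1) % n)) w) χ := fun j hj =>
    (h.term2 hn ha hχ (mem_range.1 hj) (su_lt hn j)).1
  rw [e.deriv_eq, deriv_fun_sum hdd]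
  constructor
  · rw [Complex.re_sum]
    refine (sum_le_sum fun j hj => (h.term2 hn ha hχ (mem_range.1 hj) (su_lt hn j)).2.1).trans ?_
    rw [sum_const, card_range, nsmul_eq_mul]
    linarith
  · refine (norm_sum_le _ _).trans ?_
    refine (sum_le_sum fun j hj => (h.term2 hn ha hχ (mem_range.1 hj) (su_lt hn j)).2.2).trans ?_
    rw [sum_const, card_range, nsmul_eq_mul]
    linarith

lemma G_close {χ : ℂ} (hχ : χ ∈ Rc (r / 2) (r / 2)) {m : ℝ} (hm : ∀ j < n, m ≤ |(a j : ℝ)|)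
    (hm0 : 0 < m) : ‖GG s n a (zf f n a) χ - n * s 0 0 χ‖ ≤
      K1 r C * (K1 r C + 2 + 2 * AA r C) * n / m := by
  have hA := h.AA_pos
  have hK := h.K1_pos
  have hr := h.hr
  have m0 : (0 : ℂ) ∈ Rc (r / 2) (r / 2) := Rc_no (by simpa using half_pos hr)
  have e : GG s n a (zf f n a) χ - n * s 0 0 χ = ∑ j ∈ range n,
      (Complex.I * a j * zf f n a χ j ^ 2 / (4 * π) + Complex.I * zf f n a χ j +
        (s (zf f n a χ j) (zf f n a χ ((j + 1) % n)) χ - s 0 0 χ)) := by
    unfold GG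
    have : (n : ℂ) * s 0 0 χ = ∑ _j ∈ range n, s 0 0 χ := by
      rw [sum_const, card_range, nsmul_eq_mul]
    rw [this, ← sum_sub_distrib]
    exact sum_congr rfl fun j _ => by ring
  rw [e]
  refine (norm_sum_le _ _).trans ?_
  have ht : ∀ j ∈ range n, ‖Complex.I * a j * zf f n a χ j ^ 2 / (4 * π) +
      Complex.I * zf f n a χ j + (s (zf f n a χ j) (zf f n a χ ((j + 1) % n)) χ - s 0 0 χ)‖ ≤
      K1 r C * (K1 r C + 2 + 2 * AA r C) / m := by
    intro j hj
    have hj' := mem_range.1 hj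
    have hs : (j + 1) % n < n := su_lt hn j
    have b1 := h.z_bd hn ha hχ hj'
    have b2 := h.z_bd hn ha hχ hs
    have p1 := h.apos ha hj'
    have c1 : K1 r C / |(a j : ℝ)| ≤ K1 r C / m :=
      div_le_div_of_nonneg_left hK.le hm0 (hm j hj')
    have c2 : K1 r C / |(a ((j + 1) % n) : ℝ)| ≤ K1 r C / m :=
      div_le_div_of_nonneg_left hK.le hm0 (hm _ hs)
    have t1 : ‖Complex.I * a j * zf f n a χ j ^ 2 / (4 * (π : ℂ))‖ ≤ K1 r C * (K1 r C / m) := by
      rw [norm_div, norm_mul, norm_mul, Complex.norm_I, one_mul, norm_pow, norm_mul]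
      have h4 : ‖(π : ℂ)‖ = π := by simp [abs_of_pos Real.pi_pos]
      have h5 : ‖(4 : ℂ)‖ = 4 := by simp
      have h6 : ‖(a j : ℂ)‖ = |(a j : ℝ)| := by
        rw [← Complex.ofReal_intCast, Complex.norm_real, Real.norm_eq_abs]
      rw [h4, h5, h6, div_le_iff₀ (by positivity)]
      have h7 : ‖zf f n a χ j‖ ^ 2 ≤ (K1 r C / |(a j : ℝ)|) ^ 2 :=
        pow_le_pow_left₀ (norm_nonneg _) b1 2
      have h8 : |(a j : ℝ)| * ‖zf f n a χ j‖ ^ 2 ≤ K1 r C * (K1 r C / |(a j : ℝ)|) := by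
        refine (mul_le_mul_of_nonneg_left h7 p1.le).trans (le_of_eq ?_)
        field_simp
      have h9 : K1 r C * (K1 r C / |(a j : ℝ)|) ≤ K1 r C * (K1 r C / m) :=
        mul_le_mul_of_nonneg_left c1 hK.le
      have h10 : 0 ≤ K1 r C * (K1 r C / m) := by positivity
      have h11 : (1 : ℝ) ≤ 4 * π := by linarith [Real.pi_gt_three]
      nlinarith
    have t2 : ‖Complex.I * zf f n a χ j‖ ≤ K1 r C / m := by
      rw [norm_mul, Complex.norm_I, one_mul]
      linarith
    have t3 : ‖s (zf f n a χ j) (zf f n a χ ((j + 1) % n)) χ - s 0 0 χ‖ ≤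
        AA r C * (2 * (K1 r C / m)) := by
      refine (h.sL (h.z_mem hn ha hχ hj') (h.z_mem hn ha hχ hs) m0 m0 hχ).trans ?_
      apply mul_le_mul_of_nonneg_left _ hA.le
      rw [sub_zero, sub_zero]
      linarith
    refine (norm_add_le _ _).trans ((add_le_add_left (norm_add_le _ _) _).trans ?_)
    have t4 : K1 r C * (K1 r C + 2 + 2 * AA r C) / m =
        K1 r C * (K1 r C / m) + 2 * (K1 r C / m) + AA r C * (2 * (K1 r C / m)) := by
      field_simp
    have t5 : 0 ≤ K1 r C / m := by positivity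
    rw [t4]
    linarith
  refine (sum_le_sum ht).trans (le_of_eq ?_)
  rw [sum_const, card_range, nsmul_eq_mul]
  ring

end Sys

end Pool.Agent.Y508.CH
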